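import Pool.Agent.SDT.Converse

/-!
# Classification of the self-dual toroidal polyhedra

A poset `P` is a self-dual toroidal polyhedron if and only if it is the poset of faces of the
unfolding of a simple datum of one of seven explicit types (see `Pool/Agent/SDT/Defs.lean`).
-/

namespace Pool.Agent.Results.MP_7dca92_co.SevenTypes

open Pool.Agent.SDT

/-- The self-dual toroidal polyhedra are, up to isomorphism, the posets of faces of the unfoldings
of the simple data of the types I, II, III, IV, V, VI, VII. -/
theorem result (P : Type) [PartialOrder P] :
    SelfDualToroidal P ↔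
      ∃ D : Datum, (D.TypeI ∨ D.TypeII ∨ D.TypeIII ∨ D.TypeIV ∨ D.TypeV ∨ D.TypeVI ∨ D.TypeVII) ∧
        D.Simple ∧ Nonempty (P ≃o Faces D.sys) :=
  classification P

end Pool.Agent.Results.MP_7dca92_co.SevenTypes
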